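import Pool.Agent.J4H40.Zo

/-!
# Prime `(k+1)`-tuples `n, n + h₁, ..., n + h_k` for the vectors `(h₁, ..., h_k)` in ALL classes of the regular moduli

The question asks for integers `n` such that `n, n + h₁, ..., n + h_k` are all prime, for every admissible vector of
shifts. Here almost all vectors of shifts are treated for EVERY `k`, and the shifts are restricted to residue
classes with large moduli.

For all large `N` there is a set `D` of at most `(log N) ^ k₀` integers, all of them larger than any given power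
of `log N`, such that for all moduli `q₁, ..., q_k` which are not divisible by members of `D` and for ALL residue
classes `a_i` modulo `q_i`, without any condition on `gcd(a_i, q_i)` (for instance `a_i = 0`: the shifts are multiples
of `q_i`), each of the following assertions holds for all but at most `∏ (N / q_i) / (log N)^A` of the vectors
`h` with `|h_i| ≤ N`, `h_i ≡ a_i (mod q_i)` (the number of all these vectors is about `∏ (2 N / q_i)`), for ALL
windows `y₁ < n ≤ y₂ ≤ N` in which all the numbers `n + h_i` are positive. `J` is any subset of the indices;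
`q_i ≤ N ^ (5 / 6 - ρ)` for `i ∈ J` and `q_i ≤ N ^ (1 - ρ)` for `i ∉ J`.

(i) If `y₂ - y₁ ≥ N / (log N)^A`: there are at least `(13 / 100) ^ |J| M ^ (k - |J|) S (y₂ - y₁) / (log N)^(k+1)`
primes `n` in the window such that `n + h_i` is prime for all `i ∈ J` and `n + h_i = p₁ p₂` is a product of two primes,
`p₁ ≤ N ^ ρ`, for all `i ∉ J`. Here `S` is the constant of Hardy and Littlewood for the tuple `(0, h₁, ..., h_k)`,
which is positive for admissible tuples. (For `J = {1, ..., k}`: at least the proportion `(13 / 100) ^ k` of the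
number of the prime `(k + 1)`-tuples predicted by Hardy and Littlewood, for moduli up to `N ^ (5 / 6 - ρ)`.)
(ii) The corresponding inequality for an ARBITRARY real weight `0 ≤ F(n) ≤ log N` on the first number `n`
(for instance the indicator function of an arbitrary set), for products of the function of von Mangoldt (`i ∈ J`) and
of convolutions `c_i * Λ` with arbitrary nonnegative coefficients (`i ∉ J`), compared with the sieve model of the
primes: the normalized indicator function of the integers without prime factors up to `z = (log(3 N))^E`.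

If all `q_i ≤ N ^ (1 - ρ)`:
(iii) for arbitrary real coefficients `|c_i(d)| ≤ 1` supported on the integers `N ^ κ < d ≤ N ^ σ` without prime
factors up to `N ^ κ`, the sum of `Λ(n) ∏ (c_i * Λ)(n + h_i)` satisfies the expected asymptotic formula;
(iv) for an ARBITRARY complex weight `|F(n)| ≤ log N` on the first number, the product of the convolutions can be
replaced by the product of the densities times the sieve models.

The set `D` does not depend on the moduli, on the classes, on `J` or on the weight. For example, let `q ≤ N ^ (5/6 - ρ)`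
be any modulus not divisible by the members of `D` (all primes `q`, except `(log N) ^ k₀` of them). Then for almost all
vectors `(m₁, ..., m_k)` of integers `|m_i| ≤ N / q` the prime tuples `n, n + q m₁, ..., n + q m_k` exist in all
windows, in at least `(13 / 100) ^ k` times the expected number.

Proof (`J4H40`, `Ya` to `Yn`, `Zf` to `Zo`): the theorem on sums `n = b + p` in all classes of the regular moduli
(MP_dd84fd_nt/AllClassesOfRegularModuli) holds for arbitrary first summands. The factors `Λ(n + h_j)` are replaced by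
their models one after another, for the weight which is the product of the other ones; the exceptional set of the
moduli does not depend on this weight. The main term is computed with the theorem of Bombieri and Vinogradov
(`Pool.Agent.H373R2.T7.tuple_main`, from the starting files).
-/

set_option autoImplicit false

namespace Pool.Agent.Results.MP_8923e7_nt.AllClassesOfShiftVectors

open Finset
open ArithmeticFunction (vonMangoldt)

/-- The integer `n + h` (for `n + h ≥ 0`). -/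
def plus (h : ℤ) (n : ℕ) : ℕ := ((n : ℤ) + h).toNat

open Classical in
/-- All but at most `∏ (N / q_i) / (log N)^A` of the vectors `h` of integers `-N ≤ h_i ≤ N`, `h_i ≡ a_i (mod q_i)`,
have the property `P`. -/
def AlmostAll {k : ℕ} (N : ℕ) (q : Fin k → ℕ) (a : Fin k → ℤ) (A : ℕ) (P : (Fin k → ℤ) → Prop) : Prop :=
  (((Fintype.piFinset fun i => {t ∈ Icc (-(N : ℤ)) N | t ≡ a i [ZMOD q i]}).filter fun h => ¬ P h).card : ℝ) ≤
    (∏ i, (N : ℝ) / q i) / Real.log N ^ A

/-- The window of the integers `y₁ < n ≤ y₂` is such that `n ≤ N` and that all the numbers `n`, `n + h_i` are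
positive. -/
def Window {k : ℕ} (N : ℕ) (h : Fin k → ℤ) (y₁ y₂ : ℕ) : Prop := y₁ ≤ y₂ ∧ y₂ ≤ N ∧ ∀ i, 0 ≤ (y₁ : ℤ) + h i

/-- The number of the residue classes `r` modulo `p` with `r ∏ (r + h_i) ≡ 0 (mod p)`. -/
def nu {k : ℕ} (h : Fin k → ℤ) (p : ℕ) : ℕ := ((range p).filter fun r => p ∣ r ∨ ∃ i, (p : ℤ) ∣ (r : ℤ) + h i).card

/-- `S` is the constant of Hardy and Littlewood `∏_p (1 - ν(p) / p) (1 - 1 / p)^(-k-1)` for the tuple
`(0, h₁, ..., h_k)`. -/
def HL {k : ℕ} (h : Fin k → ℤ) (S : ℝ) : Prop :=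
  Filter.Tendsto (fun z : ℕ => ∏ p ∈ (Icc 1 z).filter Nat.Prime,
    (1 - (nu h p : ℝ) / p) / (1 - 1 / (p : ℝ)) ^ (k + 1)) Filter.atTop (nhds S)

/-- The sieve model: `∏_{p ≤ z} (1 - 1 / p)⁻¹` if `n` has no prime factor `p ≤ z`, and `0` otherwise. -/
noncomputable def model (z n : ℕ) : ℝ :=
  if ∀ p ∈ (Icc 1 z).filter Nat.Prime, ¬ p ∣ n then (∏ p ∈ (Icc 1 z).filter Nat.Prime, (1 - 1 / (p : ℝ)))⁻¹ else 0

/-- Coefficients bounded by one, supported on the integers `N ^ κ < d ≤ N ^ σ` all of whose prime factors are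
larger than `N ^ κ`. -/
structure Coefficients (N : ℕ) (κ σ : ℝ) (c : ℕ → ℝ) : Prop where
  le_one : ∀ d, |c d| ≤ 1
  support : ∀ d, c d ≠ 0 →
    (N : ℝ) ^ κ < d ∧ (d : ℝ) ≤ (N : ℝ) ^ σ ∧ ∀ p ∈ d.primeFactors, (N : ℝ) ^ κ < p

/-- The convolution of the coefficients with the function of von Mangoldt. -/
noncomputable def conv (c : ℕ → ℝ) (n : ℕ) : ℝ := ∑ d ∈ n.divisors, c d * vonMangoldt (n / d)

/-- The density of the coefficients. -/
noncomputable def dens (N : ℕ) (c : ℕ → ℝ) : ℝ := ∑ d ∈ Icc 1 N, c d / d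

lemma almost_of {k N : ℕ} {q : Fin k → ℕ} {a : Fin k → ℤ} {A : ℕ} {P Q : (Fin k → ℤ) → Prop}
    (hPQ : ∀ h : Fin k → ℤ, (∀ i, -(N : ℤ) ≤ h i ∧ h i ≤ N) → Q h → P h) (h : Pool.Agent.J4H40.FewV N q a A Q) :
    AlmostAll N q a A P := by
  classical
  have h1 := Pool.Agent.J4H40.fewV_mono (Q := P) (fun t ht hq => hPQ t (fun i =>
    (Pool.Agent.J4H40.mem_SV.1 (ht i)).1) hq) h
  unfold Pool.Agent.J4H40.FewV at h1
  unfold AlmostAll
  exact h1

lemma at_eq {k N : ℕ} {h : Fin k → ℤ} (h1 : ∀ i, -(N : ℤ) ≤ h i ∧ h i ≤ N) {y₁ y₂ n : ℕ} (hI : Window N h y₁ y₂)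
    (hn : y₁ < n) (i : Fin k) : n + Pool.Agent.J4H40.uu N h i - N = plus (h i) n := by
  obtain ⟨w1, w2, w3⟩ := hI
  have g1 := h1 i
  have g2 := w3 i
  unfold plus Pool.Agent.J4H40.uu
  omega

lemma ncard_eq (y₁ y₂ : ℕ) (R : ℕ → Prop) [DecidablePred R] :
    Set.ncard {m : ℕ | y₁ < m ∧ m ≤ y₂ ∧ R m} = ((Ioc y₁ y₂).filter R).card := by
  rw [← Set.ncard_coe_finset]
  congr 1
  ext m
  simp only [Set.mem_ofPred_eq, coe_filter, mem_Ioc]
  tauto

/-- Let `k ≥ 1`, `0 < κ`, `0 < σ < ρ`, `σ ≤ 1 / 2`, and let `A`, `M` be natural numbers. There is a `k₀` such that for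
every `B`, all sufficiently large `E` and then all sufficiently large `N`, for all coefficients `c₁, ..., c_k` there is
a set `D` of at most `(log N) ^ k₀` integers, all larger than `(log N) ^ B`, such that for ALL moduli `q_i ≥ 1` which
are not divisible by members of `D`, and ALL residue classes `a_i`, the properties (i), (ii) hold for almost all
vectors of shifts and every set `J` of indices with `q_i ≤ N ^ (5 / 6 - ρ)` for `i ∈ J` and `q_i ≤ N ^ (1 - ρ)` for
`i ∉ J`, and the properties (iii), (iv) if `q_i ≤ N ^ (1 - ρ)` for all `i`. -/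
theorem result (k : ℕ) (hk : 1 ≤ k) (κ σ ρ : ℝ) (hκ : 0 < κ) (hσ : 0 < σ) (hσρ : σ < ρ) (hσ2 : σ ≤ 1 / 2) (A M : ℕ) :
    ∃ k₀ : ℕ, ∀ B : ℕ, ∃ E₀ : ℕ, ∀ E : ℕ, E₀ ≤ E → ∃ N₀ : ℕ, ∀ N : ℕ, N₀ ≤ N →
      ∀ c : Fin k → ℕ → ℝ, (∀ i, Coefficients N κ σ (c i)) →
      ∃ D : Finset ℕ, (D.card : ℝ) ≤ Real.log N ^ k₀ ∧ (∀ d ∈ D, Real.log N ^ B < (d : ℝ)) ∧
      ∀ q : Fin k → ℕ, (∀ i, 1 ≤ q i) → (∀ i, ∀ d ∈ D, ¬ d ∣ q i) → ∀ a : Fin k → ℤ,
        (∀ J : Finset (Fin k), (∀ i ∈ J, (q i : ℝ) ≤ (N : ℝ) ^ (5 / 6 - ρ)) →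
          (∀ i ∉ J, (q i : ℝ) ≤ (N : ℝ) ^ (1 - ρ)) →
          AlmostAll N q a A (fun h => (∀ i, h i ≠ 0) ∧ (∀ i j, i ≠ j → h i ≠ h j) ∧ ∃ S : ℝ, HL h S ∧
            ∀ y₁ y₂ : ℕ, Window N h y₁ y₂ → (N : ℝ) / Real.log N ^ A ≤ (y₂ : ℝ) - y₁ →
              (13 / 100) ^ J.card * (M : ℝ) ^ (k - J.card) * (S * ((y₂ : ℝ) - y₁) / Real.log N ^ (k + 1)) ≤
                (Set.ncard {n : ℕ | y₁ < n ∧ n ≤ y₂ ∧ n.Prime ∧ (∀ i ∈ J, (plus (h i) n).Prime) ∧
                  ∀ i ∉ J, ∃ p₁ p₂ : ℕ, p₁.Prime ∧ p₂.Prime ∧ (p₁ : ℝ) ≤ (N : ℝ) ^ ρ ∧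
                    plus (h i) n = p₁ * p₂} : ℝ)) ∧
          ((∀ i ∉ J, ∀ d, 0 ≤ c i d) → ∀ F : ℕ → ℝ, (∀ n ∈ Icc 1 N, 0 ≤ F n ∧ F n ≤ Real.log N) →
            AlmostAll N q a A (fun h => ∀ y₁ y₂ : ℕ, Window N h y₁ y₂ →
              (13 / 100) ^ J.card * ∑ n ∈ Ioc y₁ y₂, F n * ∏ i, (if i ∈ J then
                  model ⌈Real.log (3 * N) ^ E⌉₊ (plus (h i) n) else
                  dens N (c i) * model ⌈Real.log (3 * N) ^ E⌉₊ (plus (h i) n)) - N / Real.log N ^ A ≤
                ∑ n ∈ Ioc y₁ y₂, F n * ∏ i, (if i ∈ J then vonMangoldt (plus (h i) n) else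
                  conv (c i) (plus (h i) n))))) ∧
        ((∀ i, (q i : ℝ) ≤ (N : ℝ) ^ (1 - ρ)) →
          AlmostAll N q a A (fun h => (∀ i, h i ≠ 0) ∧ (∀ i j, i ≠ j → h i ≠ h j) ∧ ∃ S : ℝ, HL h S ∧
            ∀ y₁ y₂ : ℕ, Window N h y₁ y₂ →
              |∑ n ∈ Ioc y₁ y₂, vonMangoldt n * ∏ i, conv (c i) (plus (h i) n) -
                (∏ i, dens N (c i)) * S * ((y₂ : ℝ) - y₁)| ≤ N / Real.log N ^ A) ∧
          ∀ F : ℕ → ℂ, (∀ n ∈ Icc 1 N, ‖F n‖ ≤ Real.log N) →
            AlmostAll N q a A (fun h => ∀ y₁ y₂ : ℕ, Window N h y₁ y₂ →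
              ‖∑ n ∈ Ioc y₁ y₂, F n * ((∏ i, conv (c i) (plus (h i) n) -
                ∏ i, dens N (c i) * model ⌈Real.log (3 * N) ^ E⌉₊ (plus (h i) n) : ℝ) : ℂ)‖ ≤
                N / Real.log N ^ A)) := by
  classical
  obtain ⟨k₀, hk₀⟩ := Pool.Agent.J4H40.allV hκ hσ hσρ hσ2 k A M hk
  refine ⟨k₀, fun B => ?_⟩
  obtain ⟨E₀, hE₀⟩ := hk₀ B
  refine ⟨E₀, fun E hE => ?_⟩
  obtain ⟨N₀, h1⟩ := hE₀ E hE
  refine ⟨N₀, fun N hN c hc => ?_⟩
  obtain ⟨D, hD1, hD2, hD⟩ := h1 N hN c (fun i => ⟨(hc i).le_one, (hc i).support⟩)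
  refine ⟨D, hD1, hD2, fun q hq hqD a => ?_⟩
  obtain ⟨b1, b2⟩ := hD q hq hqD a
  have hz : Pool.Agent.J4H40.zz N E = ⌈Real.log (3 * N) ^ E⌉₊ := by
    unfold Pool.Agent.J4H40.zz
    push_cast
    rfl
  refine ⟨fun J hJ hJc => ⟨?_, fun hc0 F hF => ?_⟩, fun hq1 => ⟨?_, fun F hF => ?_⟩⟩
  · refine almost_of (fun h hh hQ => ?_) (b1 J hJ hJc).1
    obtain ⟨g1, g2, S, g3, g4⟩ := hQ
    refine ⟨g1, g2, S, g3, fun y₁ y₂ hI hΔ => ?_⟩
    have := g4 y₁ y₂ hI hΔ
    rw [ncard_eq]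
    refine this.trans (le_of_eq ?_)
    unfold Pool.Agent.J4H40.cntV
    congr 2
    apply filter_congr
    intro n hn
    rw [mem_Ioc] at hn
    have e : ∀ i, n + Pool.Agent.J4H40.uu N h i - N = plus (h i) n := fun i => at_eq hh hI hn.1 i
    unfold Pool.Agent.J4H40.niceI
    simp only [e]
    constructor
    · rintro ⟨k1, k2⟩
      exact ⟨k1, fun i hi => (k2 i).1 hi, fun i hi => (k2 i).2 hi⟩
    · rintro ⟨k1, k2, k3⟩
      exact ⟨k1, fun i => ⟨fun hi => k2 i hi, fun hi => k3 i hi⟩⟩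
  · refine almost_of (fun h hh hQ y₁ y₂ hI => ?_) ((b1 J hJ hJc).2 hc0 F hF)
    have := hQ y₁ y₂ hI
    rw [hz] at this
    have e1 : ∑ n ∈ Ioc y₁ y₂, F n * ∏ i, Pool.Agent.J4H40.modF J c N ⌈Real.log (3 * N) ^ E⌉₊ i
        (n + Pool.Agent.J4H40.uu N h i - N) = ∑ n ∈ Ioc y₁ y₂, F n * ∏ i, (if i ∈ J then
          model ⌈Real.log (3 * N) ^ E⌉₊ (plus (h i) n) else
          dens N (c i) * model ⌈Real.log (3 * N) ^ E⌉₊ (plus (h i) n)) := by
      refine sum_congr rfl fun n hn => ?_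
      congr 1
      refine prod_congr rfl fun i _ => ?_
      rw [at_eq hh hI (mem_Ioc.1 hn).1 i]
      rfl
    have e2 : ∑ n ∈ Ioc y₁ y₂, F n * ∏ i, Pool.Agent.J4H40.trueF J c i (n + Pool.Agent.J4H40.uu N h i - N) =
        ∑ n ∈ Ioc y₁ y₂, F n * ∏ i, (if i ∈ J then vonMangoldt (plus (h i) n) else
          conv (c i) (plus (h i) n)) := by
      refine sum_congr rfl fun n hn => ?_
      congr 1
      refine prod_congr rfl fun i _ => ?_
      rw [at_eq hh hI (mem_Ioc.1 hn).1 i]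
      rfl
    rw [e1, e2] at this
    exact this
  · refine almost_of (fun h hh hQ => ?_) (b2 hq1).1
    obtain ⟨g1, g2, S, g3, g4⟩ := hQ
    refine ⟨g1, g2, S, g3, fun y₁ y₂ hI => ?_⟩
    have := g4 y₁ y₂ hI
    have e1 : ∑ n ∈ Ioc y₁ y₂, Pool.Agent.R460.GS.la n * ∏ i, Pool.Agent.J4H40.GA (c i)
        (n + Pool.Agent.J4H40.uu N h i - N) =
        ∑ n ∈ Ioc y₁ y₂, vonMangoldt n * ∏ i, conv (c i) (plus (h i) n) := by
      refine sum_congr rfl fun n hn => ?_
      unfold Pool.Agent.R460.GS.la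
      congr 1
      refine prod_congr rfl fun i _ => ?_
      rw [at_eq hh hI (mem_Ioc.1 hn).1 i]
      rfl
    rw [e1] at this
    exact this
  · refine almost_of (fun h hh hQ y₁ y₂ hI => ?_) ((b2 hq1).2 F hF)
    have := hQ y₁ y₂ hI
    rw [hz] at this
    refine le_trans (le_of_eq ?_) this
    congr 1
    refine sum_congr rfl fun n hn => ?_
    rw [← Complex.ofReal_sub]
    congr 3
    · refine prod_congr rfl fun i _ => ?_
      rw [at_eq hh hI (mem_Ioc.1 hn).1 i]
      unfold Pool.Agent.J4H40.trueF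
      rw [if_neg (notMem_empty i)]
      rfl
    · refine prod_congr rfl fun i _ => ?_
      rw [at_eq hh hI (mem_Ioc.1 hn).1 i]
      unfold Pool.Agent.J4H40.modF
      rw [if_neg (notMem_empty i)]
      rfl

end Pool.Agent.Results.MP_8923e7_nt.AllClassesOfShiftVectors
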