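import Mathlib
import Pool.Agent.J4H73.AQ.Gb

set_option autoImplicit false

/-!
# Szemerédi's theorem inside the isolated primes of Chen's theorem

Let `N` be a large even number. Chen's theorem gives representations `N = p + m` with `p` prime and `m` a product of at
most two primes. Here the prime `p` is moreover isolated at the scale `R(N)` of Erdős and Rankin: every other integer
within `c R(N)` of `p` has a prime factor `≤ N ^ δ`. For a suitable modulus `W ≤ N ^ (1 / 700)` and class `r`

* the set `G` of these primes `p ≡ r (mod W)`, `N / 4 < p ≤ N`, has at least `ρ (N / W) (W / (φ(W) log N)) ^ 2` elements,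
  which is the order of magnitude of the number of ALL the primes `p ≡ r (mod W)` up to `N` for which `N - p` has no
  small prime factor, up to the factor given by the prime factors of `N`;
* every subset `U` of `G` of relative density `η` contains, for every `K`, many progressions of `K + 1` terms with
  one and the same difference `W d`, `1 ≤ d ≤ (log N) ^ B`: there are at least `N ^ (49 / 50)` of them.

In particular (`U = G`) every large even `N` has at least `N ^ (49 / 50)` families of representations
`N = p_j + m_j`, `j = 0, ..., K`, in which the primes `p_j` and the products `m_j` of at most two primes form arithmetic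
progressions with a difference `≤ N ^ (1 / 600)`, common to all the families, and all the `p_j` are isolated.

Method: the weighted linear sieve with switching inside a class modulo the product `W` of the small primes obtained by
the Erdős-Rankin method, with the order of magnitude of the main term, and the relative Szemerédi theorem for arbitrary
sifted sets with narrow progressions (`Pool.Agent.Y843.HS.fin` of the starting files) in short intervals.
-/

namespace Pool.Agent.Results.MP_dd84fd_nt.IsolatedChenProgressions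

open Finset

/-- Rankin's function -/
noncomputable def rankin (x : ℝ) : ℝ :=
  Real.log x * Real.log (Real.log x) * Real.log (Real.log (Real.log (Real.log x))) /
    Real.log (Real.log (Real.log x)) ^ 2

/-- `m` has at most two prime factors (counted with multiplicity), all of them `≥ Q` -/
def AlmostPrime (Q : ℝ) (m : ℤ) : Prop :=
  m.natAbs.primeFactorsList.length ≤ 2 ∧ ∀ q : ℕ, q.Prime → (q : ℤ) ∣ m → Q ≤ q

/-- `z` has a prime factor `≤ w` -/
def HasSmallFactor (w : ℝ) (z : ℤ) : Prop := ∃ q : ℕ, q.Prime ∧ (q : ℝ) ≤ w ∧ (q : ℤ) ∣ z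

open Classical in
/-- The isolated primes `p ≡ r (mod W)` of Chen's theorem for `N`: `N / 4 < p ≤ N`, `N - p` has at most two prime
factors, all `≥ N ^ (1 / 9)`, and every integer `z ≠ p` within `c R(N)` of `p` has a prime factor `≤ N ^ δ`. -/
noncomputable def isolatedChen (δ c : ℝ) (N W r : ℕ) : Finset ℕ :=
  (Icc 1 N).filter (fun p : ℕ => (N : ℝ) / 4 < p ∧ p ≡ r [MOD W] ∧ p.Prime ∧
    AlmostPrime ((N : ℝ) ^ (1 / 9 : ℝ)) (N - p) ∧
    ∀ z : ℤ, |(z : ℝ) - p| ≤ c * rankin N → z ≠ p → HasSmallFactor ((N : ℝ) ^ δ) z)

/-- **Szemerédi's theorem inside the isolated primes of Chen's theorem.** -/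
theorem result (δ : ℝ) (hδ : 0 < δ) : ∃ c : ℝ, 0 < c ∧ ∃ ρ : ℝ, 0 < ρ ∧ ∃ W r : ℕ → ℕ,
    ∀ (K : ℕ) (η : ℝ), 0 < η → ∃ B N₀ : ℕ, ∀ N : ℕ, N₀ ≤ N → 2 ∣ N →
      0 < W N ∧ (W N : ℝ) ≤ (N : ℝ) ^ (1 / 700 : ℝ) ∧
      ρ * (N / W N * (W N / ((W N).totient * Real.log N)) ^ 2) ≤ ((isolatedChen δ c N (W N) (r N)).card : ℝ) ∧
      ∀ U ⊆ isolatedChen δ c N (W N) (r N), η * ((isolatedChen δ c N (W N) (r N)).card : ℝ) ≤ (U.card : ℝ) →
        ∃ d : ℕ, 1 ≤ d ∧ (d : ℝ) ≤ (Real.log N) ^ B ∧
          (N : ℝ) ^ (49 / 50 : ℝ) ≤ ((U.filter (fun p => ∀ j ≤ K, p + j * (W N * d) ∈ U)).card : ℝ) :=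
  Pool.Agent.J4H73.AQ.goldbachAP δ hδ

end Pool.Agent.Results.MP_dd84fd_nt.IsolatedChenProgressions
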