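import Mathlib
import Pool.Agent.J4H32.FinW

/-!
# Many primes in prescribed positions, and no number with more than two prime factors

Let `k ≥ 1`. There are `C`, `E` and `δ > 0`, depending only on `k`, such that the following holds. A *Chen number* at
the scale `N` is an integer `> 1` with at most two prime factors (counted with multiplicity), all at least
`N ^ (1 / 7)`.

1. (constellations) Call a vector `P = (m_1, ..., m_k)` *good* at the scale `N` if for ALL weights
   `w_0, ..., w_k ≥ 0` there is a set `S` of positions with `∑_{i ∈ S} w_i ≥ (5 / 18) ∑_i w_i` such that at least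
   `N / (log N) ^ C` of the `n ≤ N` make ALL of `n, n + m_1, ..., n + m_k` Chen numbers and the `n + m_i` with `i ∈ S`
   primes. For every large `N` and every `X ≤ N / 4`, all but `E X ^ (k - δ)` of the admissible vectors `P` of distinct
   integers in `[1, X]` are good at the scale `N`; here `X` may be fixed while `N` tends to infinity. For every fixed
   `X` and `η > 0`, all but `E X ^ (k - δ) / η` of these `P` are good at a set of scales `N` of upper density at least
   `1 - η` in any prescribed sequence of scales, e. g. `N = 2 ^ j`; so (`η = 1 / 2`) all but `2 E X ^ (k - δ)` of them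
   are good for arbitrarily large `N`.
2. (arbitrary sets of linear forms) The same for the `r`-tuples of distinct forms from an arbitrary finite set `V` of
   primitive linear forms, `r ≥ 1`: at most `E |V| ^ (r - δ)` of the admissible tuples are not good (for `V` in a window
   at the scale `N` and every large `N`; for fixed `V` and most scales).

Examples, for one good constellation: a prime in any prescribed position (`w` concentrated there); two primes in any
four prescribed positions, primes in at least `5 |A| / 18` of the positions in any set `A` of positions; always all the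
other numbers have at most two prime factors. For the fractional relaxation: by the minimax theorem there is a
probability distribution on the attained sets of primes for which every position is prime with probability at least
`5 / 18`.

The Maynard-Tao theorem, in the form of the starting files (`Pool.Agent.Y827`, constant `18 / 5`), gives the primes but
no information on the other numbers of the constellation; Chen's method gives one prime in a pair. For ALL
admissible tuples one knows such results only with many more prime factors (in total about `k log k`), and for a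
positive proportion of the constellations infinitely many `n` make all the numbers prime (Maynard, Pintz). The starting
file `AlmostPrimePatterns` is about fixed `N` (exceptional set `C(|A|, k - 1) (log N) ^ B`, so that it says nothing
about a fixed constellation), and about one prime.

Method. For `T` classes of `K` forms each, the Maynard-Tao weights are combined with a weighted sieve (Richert's
weights) in every class: if `18 M < 5 T`, at `N / (log N) ^ (T K + 1)` of the `n ≤ N` EVERY class contains a number with
at most two prime factors and more than `M` of the classes contain a prime (`AsmP`, `FinalP`, `LamP`). With `w_i` classes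
for the position `i` (`WtP`), the exceptional tuples contain no `K × ... × K` grid, and Erdős' theorem on complete
multipartite hypergraphs gives the power saving (`WtQ`, `FinW`).
-/

set_option autoImplicit false

namespace Pool.Agent.Results.MP_68a45e_nt.PrimesAmongAlmostPrimes

open Finset Filter

/-- the value at `n` of the linear form `a x + b`, given by `f = (a, b)`; `0` if it is negative -/
def value (f : ℤ × ℤ) (n : ℕ) : ℕ := (f.1 * (n : ℤ) + f.2).toNat

/-- `m > 1` has at most two prime factors, counted with multiplicity, and all of them are at least `y` -/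
def ChenNumber (y : ℝ) (m : ℕ) : Prop :=
  1 < m ∧ m.primeFactorsList.length ≤ 2 ∧ ∀ q ∈ m.primeFactors, y ≤ q

/-- the forms are admissible: no prime divides the product of the forms at every integer -/
def Admissible {r : ℕ} (f : Fin r → ℤ × ℤ) : Prop :=
  ∀ p : ℕ, p.Prime → ∃ x : ℤ, ∀ i, ¬ (p : ℤ) ∣ (f i).1 * x + (f i).2

open Classical in
/-- the number of `n ≤ N` at which all the `r` forms have at most two prime factors, all of them at least
`N ^ (1 / 7)`, and the forms with index in `S` are primes -/
noncomputable def primesAt {r : ℕ} (N : ℕ) (f : Fin r → ℤ × ℤ) (S : Finset (Fin r)) : ℕ :=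
  ((Icc 1 N).filter (fun n : ℕ => (∀ j, ChenNumber ((N : ℝ) ^ (1 / 7 : ℝ)) (value (f j) n)) ∧
    ∀ j ∈ S, (value (f j) n).Prime)).card

/-- the tuple is good at the scale `N`: for all weights on the positions there are primes in positions with at least
`5 / 18` of the total weight, `N / (log N) ^ C` times, while all the numbers have at most two prime factors -/
def Good {r : ℕ} (C N : ℕ) (f : Fin r → ℤ × ℤ) : Prop :=
  ∀ w : Fin r → ℝ, (∀ i, 0 ≤ w i) → ∃ S : Finset (Fin r), 5 * ∑ i, w i ≤ 18 * ∑ i ∈ S, w i ∧
    (N : ℝ) / (Real.log N) ^ C ≤ (primesAt N f S : ℝ)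

open Classical in
/-- among the scales `s 0, s 1, ...` those with the property `Q` have upper density at least `1 - η`: for infinitely
many `J` at least `(1 - η) J` of the scales `s 0, ..., s (J - 1)` have it -/
def MostScales (s : ℕ → ℕ) (η : ℝ) (Q : ℕ → Prop) : Prop :=
  ∃ᶠ J : ℕ in atTop, (1 - η) * J ≤ (((range J).filter (fun j => Q (s j))).card : ℝ)

/-- the `k + 1` forms `x, x + m_1, ..., x + m_k` -/
def constellation {k : ℕ} (m : Fin k → ℕ) : Fin (k + 1) → ℤ × ℤ :=
  Fin.cons (1, 0) (fun i => (1, (m i : ℤ)))

open Classical in
/-- the vectors `(m_1, ..., m_k)` of distinct integers in `[1, X]` for which the constellation is admissible -/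
noncomputable def vectors (k X : ℕ) : Finset (Fin k → ℕ) :=
  (Fintype.piFinset (fun _ : Fin k => Icc 1 X)).filter
    (fun m => Function.Injective m ∧ Admissible (constellation m))

open Classical in
/-- the admissible `r`-tuples of distinct forms from `V` -/
noncomputable def tuples (r : ℕ) (V : Finset (ℤ × ℤ)) : Finset (Fin r → ℤ × ℤ) :=
  (Fintype.piFinset (fun _ : Fin r => V)).filter (fun f => Function.Injective f ∧ Admissible f)

/-- the primitive form `f` is in the window at the scale `N`: `0 < |f.1| ≤ A`, `|f.2| ≤ N / 2`, and the values at
`N / 16` and `N / 2` (hence between) are at least `N / 20` -/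
def Window (A N : ℕ) (f : ℤ × ℤ) : Prop :=
  f.1 ≠ 0 ∧ |f.1| ≤ A ∧ 2 * |f.2| ≤ N ∧ IsCoprime f.1 f.2 ∧
    (N : ℝ) / 20 ≤ f.1 * ((N : ℝ) / 16) + f.2 ∧ (N : ℝ) / 20 ≤ f.1 * ((N : ℝ) / 2) + f.2

open Classical in
/-- **In almost all constellations there are many primes and no number with more than two prime factors.** -/
theorem result :
    -- 1. constellations
    (∀ k : ℕ, 1 ≤ k → ∃ (C : ℕ) (E δ : ℝ), 0 < E ∧ 0 < δ ∧
      -- at every large scale
      (∀ᶠ N : ℕ in atTop, ∀ X : ℕ, 4 * X ≤ N →
        (((vectors k X).filter (fun m => ¬ Good C N (constellation m))).card : ℝ) ≤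
          E * (X : ℝ) ^ ((k : ℝ) - δ)) ∧
      -- for a fixed box, at most scales
      (∀ X : ℕ, ∀ s : ℕ → ℕ, StrictMono s → ∀ η : ℝ, 0 < η →
        (((vectors k X).filter (fun m =>
          ¬ MostScales s η (fun N => Good C N (constellation m)))).card : ℝ) ≤
          E * (X : ℝ) ^ ((k : ℝ) - δ) / η)) ∧
    -- 2. arbitrary sets of forms
    (∀ r : ℕ, 1 ≤ r → ∃ (C : ℕ) (E δ : ℝ), 0 < E ∧ 0 < δ ∧
      -- at every large scale
      (∀ A : ℕ, ∀ᶠ N : ℕ in atTop, ∀ V : Finset (ℤ × ℤ), (∀ f ∈ V, Window A N f) →
        (((tuples r V).filter (fun f => ¬ Good C N f)).card : ℝ) ≤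
          E * (V.card : ℝ) ^ ((r : ℝ) - δ)) ∧
      -- for a fixed set, at most scales
      (∀ V : Finset (ℤ × ℤ), (∀ f ∈ V, 0 < f.1 ∧ IsCoprime f.1 f.2) →
        ∀ s : ℕ → ℕ, StrictMono s → ∀ η : ℝ, 0 < η →
        (((tuples r V).filter (fun f => ¬ MostScales s η (fun N => Good C N f))).card : ℝ) ≤
          E * (V.card : ℝ) ^ ((r : ℝ) - δ) / η)) := by
  refine ⟨fun k hk => ?_, fun k hk => ?_⟩
  · obtain ⟨C, E, δ, hE, hδ, -, h1, h2⟩ := Pool.Agent.J4H32.boxW k hk
    refine ⟨C, E, δ, hE, hδ, ?_, ?_⟩
    · filter_upwards [h1] with N hN X hX
      refine le_trans ?_ (hN X hX)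
      rw [Nat.cast_le]
      apply card_le_card
      intro m hm
      rw [mem_filter, vectors, mem_filter] at hm
      rw [mem_filter]
      exact ⟨hm.1.1, hm.1.2.1, hm.1.2.2, hm.2⟩
    · intro X s hs η hη
      refine le_trans ?_ (h2 X s hs η hη)
      rw [Nat.cast_le]
      apply card_le_card
      intro m hm
      rw [mem_filter, vectors, mem_filter] at hm
      rw [mem_filter]
      exact ⟨hm.1.1, hm.1.2.1, hm.1.2.2, hm.2⟩
  · obtain ⟨C, E, δ, hE, hδ, -, h1, h2⟩ := Pool.Agent.J4H32.allW k hk
    refine ⟨C, E, δ, hE, hδ, ?_, ?_⟩
    · intro A
      filter_upwards [h1 A] with N hN V hV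
      refine le_trans ?_ (hN V hV)
      rw [Nat.cast_le]
      apply card_le_card
      intro m hm
      rw [mem_filter, tuples, mem_filter] at hm
      rw [mem_filter]
      exact ⟨hm.1.1, hm.1.2.1, hm.1.2.2, hm.2⟩
    · intro V hV s hs η hη
      refine le_trans ?_ (h2 V hV s hs η hη)
      rw [Nat.cast_le]
      apply card_le_card
      intro m hm
      rw [mem_filter, tuples, mem_filter] at hm
      rw [mem_filter]
      exact ⟨hm.1.1, hm.1.2.1, hm.1.2.2, hm.2⟩

end Pool.Agent.Results.MP_68a45e_nt.PrimesAmongAlmostPrimes
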