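import Mathlib
import Pool.Agent.J4H32.HT.Main

/-!
# Three primes in every admissible 2606-tuple

`DHL[2606,3]`: for every admissible set of 2606 integers `a i` there are many `n` such that at least three of
the numbers `n + a i` are prime and no other number of the interval which they span is prime. The numbers
known before are 35410 (Polymath 2014) and 3560 (starting files). Consequences: every admissible set of 2606
integers contains a three-element pattern which is realised by consecutive primes infinitely often, and
`p (k + 2) - p k ≤ 22964` for many `k` (398130 by Polymath, 396504 by Stadlmann, 32778 in the starting files).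

Proof. Maynard's sieve with weights of product type on the simplex of size `1.0407` (where `1` corresponds to
the level `1/2`; Polymath's `ε`-trick with inner size `1.0307`). The primes are counted by an equidistribution
theorem for moduli beyond the square root whose factors can be grouped suitably
(`Pool.Agent.J4H35.ZZ.s_zz3`, `Pool.Agent.J4H35.CR.p23`): it applies to pairs of cells of total size at most
`2.0713`; pairs of cells whose small factors are too few for such a grouping are estimated from above. The
final inequality for the weight (a piecewise constant function on a mesh of about `1.3` million cells) is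
verified by the kernel (`Pool.Agent.J4H32.HT.cert_x`), with certified bounds for convolution powers of the
weight in the style of `Pool.Agent.H358R5`.
-/

set_option autoImplicit false

open Filter

namespace Pool.Agent.Results.MP_68a45e_nt.ThreePrimesAmong2606

/-- (1) For all distinct integers `a 0, ..., a 2605` which do not meet all residue classes modulo any prime
and all `ε > 0`, for all large `x` there are at least `x ^ (1 - ε)` integers `1 ≤ n ≤ x` such that at least
three of the numbers `n + a i` are prime and every prime between the least and the largest of the `n + a i`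
is one of them. (2) Every set of at least 2606 integers which does not meet all residue classes modulo any
prime has a subset `S` of three elements such that, for all `ε > 0` and arbitrarily large `x`, at least
`x ^ (1 - ε)` of the `n ≤ x` have the property that the `n + s`, `s ∈ S`, are consecutive primes. (3) For all
`ε > 0` and all large `x` at least `x ^ (1 - ε)` of the primes `p k ≤ x` satisfy
`p (k + 2) ≤ p k + 22964`. -/
theorem result :
    (∀ a : Fin 2606 → ℤ, Function.Injective a →
      (∀ p : ℕ, p.Prime → ∃ r : ℤ, ∀ i, ¬ (p : ℤ) ∣ r + a i) → ∀ ε : ℝ, 0 < ε →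
      ∀ᶠ x : ℝ in atTop, x ^ (1 - ε) ≤ (Set.ncard {n : ℕ | 1 ≤ n ∧ (n : ℝ) ≤ x ∧
        3 ≤ Set.ncard {i : Fin 2606 | ∃ p : ℕ, p.Prime ∧ (p : ℤ) = n + a i} ∧
        ∀ p : ℕ, p.Prime → (∃ i j, (n : ℤ) + a i ≤ p ∧ (p : ℤ) ≤ n + a j) →
          ∃ i, (p : ℤ) = n + a i} : ℝ)) ∧
    (∀ H : Finset ℤ, 2606 ≤ H.card → (∀ p : ℕ, p.Prime → ∃ r : ℤ, ∀ h ∈ H, ¬ (p : ℤ) ∣ r + h) →
      ∃ S : Finset ℤ, S ⊆ H ∧ S.card = 3 ∧ ∀ ε : ℝ, 0 < ε → ∃ᶠ x : ℝ in atTop,
        x ^ (1 - ε) ≤ (Set.ncard {n : ℕ | (n : ℝ) ≤ x ∧
          (∀ s ∈ S, ∃ p : ℕ, p.Prime ∧ (p : ℤ) = n + s) ∧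
          ∀ p : ℕ, p.Prime → (∃ s ∈ S, ∃ t ∈ S, (n : ℤ) + s ≤ p ∧ (p : ℤ) ≤ n + t) →
            ∃ s ∈ S, (p : ℤ) = n + s} : ℝ)) ∧
    (∀ ε : ℝ, 0 < ε → ∀ᶠ x : ℝ in atTop,
      x ^ (1 - ε) ≤ (Set.ncard {k : ℕ | (Nat.nth Nat.Prime k : ℝ) ≤ x ∧
        Nat.nth Nat.Prime (k + 2) ≤ Nat.nth Nat.Prime k + 22964} : ℝ)) :=
  ⟨Pool.Agent.J4H32.HT.consecutive, Pool.Agent.J4H32.HT.pattern3, Pool.Agent.J4H32.HT.gaps3⟩

end Pool.Agent.Results.MP_68a45e_nt.ThreePrimesAmong2606
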